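import Pool.Agent.helper64.D2.SpecF

set_option autoImplicit false

open Filter Topology
open scoped commutatorElement

namespace Pool.Agent.helper64.D2

/-- `1/√(2+v)`. -/
noncomputable def CHA_S (v : ℝ) : ℝ := 1 / √(2 + v)

theorem CHA_S_pos (v : ℝ) (hv : -2 < v) : 0 < CHA_S v := by
  unfold CHA_S
  have : 0 < √(2 + v) := Real.sqrt_pos.2 (by linarith)
  positivity

theorem CHA_S_sq (v : ℝ) (hv : -2 < v) : CHA_S v ^ 2 * (2 + v) = 1 := by
  unfold CHA_S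
  rw [div_pow, one_pow, Real.sq_sqrt (by linarith)]
  have : (2 + v) ≠ 0 := by linarith
  field_simp

theorem CHA_S_deriv (v : ℝ) (hv : -2 < v) : HasDerivAt CHA_S (-(CHA_S v) ^ 3 / 2) v := by
  have h0 : 0 < √(2 + v) := Real.sqrt_pos.2 (by linarith)
  have h1 : HasDerivAt (fun v : ℝ => 2 + v) 1 v := (hasDerivAt_id v).const_add 2
  have h2 : HasDerivAt (fun v : ℝ => √(2 + v)) (1 / (2 * √(2 + v))) v :=
    h1.sqrt (by linarith : (2 + v : ℝ) ≠ 0)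
  have h3 : HasDerivAt (fun v : ℝ => (√(2 + v))⁻¹) (-(1 / (2 * √(2 + v))) / (√(2 + v)) ^ 2) v :=
    h2.inv h0.ne'
  have h4 : CHA_S = fun v : ℝ => (√(2 + v))⁻¹ := by
    funext w; unfold CHA_S; rw [one_div]
  rw [h4]
  refine h3.congr_deriv ?_
  field_simp

theorem CHA_S_lt (v c : ℝ) (hv : -2 < v) (hc : 0 < c) (h : 1 < c ^ 2 * (2 + v)) : CHA_S v < c := by
  have h1 := CHA_S_sq v hv
  have h2 := CHA_S_pos v hv
  by_contra hcon
  have h3 : c ^ 2 ≤ CHA_S v ^ 2 := by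
    apply pow_le_pow_left₀ hc.le (not_lt.1 hcon)
  nlinarith

theorem CHA_S_gt (v c : ℝ) (hv : -2 < v) (hc : 0 < c) (h : c ^ 2 * (2 + v) < 1) : c < CHA_S v := by
  have h1 := CHA_S_sq v hv
  have h2 := CHA_S_pos v hv
  by_contra hcon
  have h3 : CHA_S v ^ 2 ≤ c ^ 2 := by
    apply pow_le_pow_left₀ h2.le (not_lt.1 hcon)
  nlinarith

/-- Bounded Lipschitz functions. -/
def CHA_BL (u : ℝ → ℝ) : Prop := ∃ A : ℝ, 0 ≤ A ∧ (∀ x, |u x| ≤ A) ∧ ∀ x y, |u x - u y| ≤ A * |x - y|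

theorem CHA_BL_const (c : ℝ) : CHA_BL (fun _ => c) := by
  refine ⟨|c|, abs_nonneg c, fun _ => le_rfl, fun x y => ?_⟩
  rw [sub_self, abs_zero]
  positivity

theorem CHA_BL_mul (u v : ℝ → ℝ) (hu : CHA_BL u) (hv : CHA_BL v) : CHA_BL (fun x => u x * v x) := by
  obtain ⟨A, hA, hu1, hu2⟩ := hu
  obtain ⟨B, hB, hv1, hv2⟩ := hv
  refine ⟨2 * (A * B), by positivity, fun x => ?_, fun x y => ?_⟩
  · rw [abs_mul]
    have := mul_le_mul (hu1 x) (hv1 x) (abs_nonneg _) hA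
    have h0 : 0 ≤ A * B := by positivity
    linarith
  · have e : u x * v x - u y * v y = u x * (v x - v y) + v y * (u x - u y) := by ring
    rw [e]
    have h1 : |u x * (v x - v y)| ≤ A * (B * |x - y|) := by
      rw [abs_mul]; exact mul_le_mul (hu1 x) (hv2 x y) (abs_nonneg _) hA
    have h2 : |v y * (u x - u y)| ≤ B * (A * |x - y|) := by
      rw [abs_mul]; exact mul_le_mul (hv1 y) (hu2 x y) (abs_nonneg _) hB
    have h3 := abs_add_le (u x * (v x - v y)) (v y * (u x - u y))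
    nlinarith

theorem CHA_BL_add (u v : ℝ → ℝ) (hu : CHA_BL u) (hv : CHA_BL v) : CHA_BL (fun x => u x + v x) := by
  obtain ⟨A, hA, hu1, hu2⟩ := hu
  obtain ⟨B, hB, hv1, hv2⟩ := hv
  refine ⟨A + B, by positivity, fun x => ?_, fun x y => ?_⟩
  · have := abs_add_le (u x) (v x)
    linarith [hu1 x, hv1 x]
  · have e : u x + v x - (u y + v y) = (u x - u y) + (v x - v y) := by ring
    rw [e]
    have h3 := abs_add_le (u x - u y) (v x - v y)
    have h4 := hu2 x y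
    have h5 := hv2 x y
    nlinarith

theorem CHA_BL_neg (u : ℝ → ℝ) (hu : CHA_BL u) : CHA_BL (fun x => -u x) := by
  have h := CHA_BL_mul (fun _ => -1) u (CHA_BL_const (-1)) hu
  have e : (fun x => -u x) = fun x => (-1 : ℝ) * u x := by funext x; ring
  rw [e]; exact h

theorem CHA_BL_inv (u : ℝ → ℝ) (hu : CHA_BL u) (c : ℝ) (hc : 0 < c) (h : ∀ x, c ≤ u x) :
    CHA_BL (fun x => (u x)⁻¹) := by
  obtain ⟨A, hA, hu1, hu2⟩ := hu
  have hp : ∀ x, 0 < u x := fun x => lt_of_lt_of_le hc (h x)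
  have hi : ∀ x, (u x)⁻¹ ≤ c⁻¹ := fun x => inv_anti₀ hc (h x)
  have hi0 : ∀ x, 0 < (u x)⁻¹ := fun x => inv_pos.2 (hp x)
  have hc0 : 0 < c⁻¹ := inv_pos.2 hc
  refine ⟨c⁻¹ + A * (c⁻¹ * c⁻¹), by positivity, fun x => ?_, fun x y => ?_⟩
  · rw [abs_of_pos (hi0 x)]
    have : 0 ≤ A * (c⁻¹ * c⁻¹) := by positivity
    linarith [hi x]
  · have e : (u x)⁻¹ - (u y)⁻¹ = (u y - u x) * ((u x)⁻¹ * (u y)⁻¹) := by
      have h1 := (hp x).ne'
      have h2 := (hp y).ne'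
      field_simp
    rw [e, abs_mul, abs_of_pos (mul_pos (hi0 x) (hi0 y)), abs_sub_comm]
    have h1 : (u x)⁻¹ * (u y)⁻¹ ≤ c⁻¹ * c⁻¹ := mul_le_mul (hi x) (hi y) (hi0 y).le hc0.le
    have h2 : |u x - u y| * ((u x)⁻¹ * (u y)⁻¹) ≤ (A * |x - y|) * (c⁻¹ * c⁻¹) :=
      mul_le_mul (hu2 x y) h1 (mul_pos (hi0 x) (hi0 y)).le (by positivity)
    have h3 : 0 ≤ c⁻¹ * |x - y| := by positivity
    nlinarith

theorem CHA_BL_comp (u φ : ℝ → ℝ) (hu : CHA_BL u) (hφ : CHA_BL φ) : CHA_BL (fun x => u (φ x)) := by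
  obtain ⟨A, hA, hu1, hu2⟩ := hu
  obtain ⟨B, hB, hv1, hv2⟩ := hφ
  refine ⟨A + A * B, by positivity, fun x => ?_, fun x y => ?_⟩
  · have : 0 ≤ A * B := by positivity
    linarith [hu1 (φ x)]
  · have h1 := hu2 (φ x) (φ y)
    have h2 : A * |φ x - φ y| ≤ A * (B * |x - y|) := mul_le_mul_of_nonneg_left (hv2 x y) hA
    have h3 : 0 ≤ A * |x - y| := by positivity
    nlinarith

/-- A differentiable function with bounded values and bounded derivative is bounded Lipschitz. -/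
theorem CHA_BL_of_deriv (u : ℝ → ℝ) (A B : ℝ) (hu : Differentiable ℝ u) (h1 : ∀ x, |u x| ≤ A)
    (h2 : ∀ x, |deriv u x| ≤ B) : CHA_BL u := by
  have hA : 0 ≤ A := (abs_nonneg _).trans (h1 0)
  have hB : 0 ≤ B := (abs_nonneg _).trans (h2 0)
  refine ⟨A + B, by positivity, fun x => by linarith [h1 x], fun x y => ?_⟩
  have h3 : ‖u x - u y‖ ≤ B * ‖x - y‖ :=
    convex_univ.norm_image_sub_le_of_norm_deriv_le (fun z _ => hu z) (fun z _ => by
      rw [Real.norm_eq_abs]; exact h2 z) (Set.mem_univ y) (Set.mem_univ x)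
  rw [Real.norm_eq_abs, Real.norm_eq_abs] at h3
  have h4 : 0 ≤ A * |x - y| := by positivity
  linarith [add_mul A B |x - y|]

/-- The projection to `[1/5,7/10]`. -/
noncomputable def CHA_p (v : ℝ) : ℝ := max (1 / 5) (min v (7 / 10))

theorem CHA_p_mem (v : ℝ) : 1 / 5 ≤ CHA_p v ∧ CHA_p v ≤ 7 / 10 := by
  unfold CHA_p
  exact ⟨le_max_left _ _, max_le (by norm_num) (min_le_right _ _)⟩

theorem CHA_p_lip (x y : ℝ) : |CHA_p x - CHA_p y| ≤ |x - y| := by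
  unfold CHA_p
  have h1 : |max (1 / 5 : ℝ) (min x (7 / 10)) - max (1 / 5) (min y (7 / 10))| ≤ |min x (7 / 10) - min y (7 / 10)| := by
    have h := abs_max_sub_max_le_max (1 / 5 : ℝ) (min x (7 / 10)) (1 / 5) (min y (7 / 10))
    rw [sub_self, abs_zero] at h
    exact h.trans (max_le (abs_nonneg _) le_rfl)
  have h2 : |min x (7 / 10 : ℝ) - min y (7 / 10)| ≤ |x - y| := by
    have h := abs_min_sub_min_le_max x (7 / 10 : ℝ) y (7 / 10)
    rw [sub_self, abs_zero] at h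
    exact h.trans (max_le le_rfl (abs_nonneg _))
  exact h1.trans h2

theorem CHA_p_BL : CHA_BL CHA_p := by
  refine ⟨1, by norm_num, fun x => ?_, fun x y => ?_⟩
  · have := CHA_p_mem x
    rw [abs_of_nonneg (by linarith)]; linarith
  · rw [one_mul]; exact CHA_p_lip x y

theorem CHA_Sp_BL : CHA_BL (fun v => CHA_S (CHA_p v)) := by
  have hL : ∀ x ∈ Set.Icc (1 / 5 : ℝ) (7 / 10), ∀ y ∈ Set.Icc (1 / 5 : ℝ) (7 / 10),
      |CHA_S x - CHA_S y| ≤ 1 * |x - y| := by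
    intro x hx y hy
    have h3 : ‖CHA_S x - CHA_S y‖ ≤ 1 * ‖x - y‖ := by
      refine (convex_Icc (1 / 5 : ℝ) (7 / 10)).norm_image_sub_le_of_norm_hasDerivWithin_le
        (f' := fun v => -(CHA_S v) ^ 3 / 2)
        (fun z hz => (CHA_S_deriv z (by linarith [hz.1])).hasDerivWithinAt) (fun z hz => ?_) hy hx
      have hz1 := CHA_S_pos z (by linarith [hz.1])
      have hz2 := CHA_S_lt z 1 (by linarith [hz.1]) one_pos (by linarith [hz.1])
      rw [Real.norm_eq_abs, abs_le]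
      have h4 : CHA_S z ^ 3 ≤ 1 := pow_le_one₀ hz1.le hz2.le
      have h5 : 0 ≤ CHA_S z ^ 3 := by positivity
      constructor <;> linarith
    exact h3
  refine ⟨1, by norm_num, fun x => ?_, fun x y => ?_⟩
  · have h := CHA_p_mem x
    have hz1 := CHA_S_pos (CHA_p x) (by linarith)
    have hz2 := CHA_S_lt (CHA_p x) 1 (by linarith) one_pos (by linarith)
    rw [abs_of_pos hz1]; exact hz2.le
  · have h := hL _ (CHA_p_mem x) _ (CHA_p_mem y)
    have h2 := CHA_p_lip x y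
    linarith

/-- The second derivative. -/
noncomputable def CHA_G (Y : ℝ → ℝ) (s : ℝ) : ℝ :=
  3 / 2 * s ^ 6 * (1 + deriv Y (1 - s)) ^ 2 * ((s - Y (1 - s))⁻¹) ^ 4
    + -(3 / 2 * s ^ 5 * (1 + deriv Y (1 - s)) * ((s - Y (1 - s))⁻¹) ^ 3)
    + 1 / 2 * s ^ 6 * ((s - Y (1 - s))⁻¹) ^ 3 * d2 Y (1 - s)

theorem CHA_calc (Y : ℝ → ℝ) (hY : ContDiff ℝ 2 Y) (hpos : ∀ v, -1 < v → 0 < CHA_S v - Y (1 - CHA_S v))
    (X : ℝ → ℝ) (hX : ∀ v, -1 < v → X v = 1 / (CHA_S v - Y (1 - CHA_S v)) ^ 2 - (2 + v)) :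
    ∀ v, -1 < v → d2 X v = CHA_G Y (CHA_S v) := by
  have hY1 : ContDiff ℝ 1 (deriv Y) := by
    have h2 : ContDiff ℝ (1 + 1) Y := by
      have e : (1 + 1 : WithTop ℕ∞) = 2 := by norm_num
      rw [e]; exact hY
    exact (contDiff_succ_iff_deriv.1 h2).2.2
  have dY : Differentiable ℝ Y := hY.differentiable (by norm_num)
  have dY1 : Differentiable ℝ (deriv Y) := hY1.differentiable (by norm_num)
  have ha : ∀ v, -1 < v → HasDerivAt (fun v => CHA_S v - Y (1 - CHA_S v))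
      (-(CHA_S v) ^ 3 / 2 * (1 + deriv Y (1 - CHA_S v))) v := by
    intro v hv
    have h1 := CHA_S_deriv v (by linarith)
    have h2 : HasDerivAt (fun v => 1 - CHA_S v) (-(-(CHA_S v) ^ 3 / 2)) v := h1.const_sub 1
    have h3 : HasDerivAt (fun v => Y (1 - CHA_S v)) (deriv Y (1 - CHA_S v) * (-(-(CHA_S v) ^ 3 / 2))) v :=
      (dY (1 - CHA_S v)).hasDerivAt.comp v h2
    refine (h1.sub h3).congr_deriv ?_
    ring
  have hX1 : ∀ v, -1 < v → deriv X v = (CHA_S v) ^ 3 * (1 + deriv Y (1 - CHA_S v)) * ((CHA_S v - Y (1 - CHA_S v))⁻¹) ^ 3 - 1 := by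
    intro v hv
    have hev : X =ᶠ[𝓝 v] fun v => ((CHA_S v - Y (1 - CHA_S v))⁻¹) ^ 2 - (2 + v) := by
      filter_upwards [lt_mem_nhds hv] with w hw
      rw [hX w hw, one_div, inv_pow]
    have hi : HasDerivAt (fun v => (CHA_S v - Y (1 - CHA_S v))⁻¹)
        (-(-(CHA_S v) ^ 3 / 2 * (1 + deriv Y (1 - CHA_S v))) / (CHA_S v - Y (1 - CHA_S v)) ^ 2) v :=
      (ha v hv).inv (hpos v hv).ne'
    have hi2 : HasDerivAt (fun v => ((CHA_S v - Y (1 - CHA_S v))⁻¹) ^ 2)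
        (((2 : ℕ) : ℝ) * ((CHA_S v - Y (1 - CHA_S v))⁻¹) ^ (2 - 1) * (-(-(CHA_S v) ^ 3 / 2 * (1 + deriv Y (1 - CHA_S v))) / (CHA_S v - Y (1 - CHA_S v)) ^ 2)) v :=
      hi.pow 2
    have hi3 : HasDerivAt (fun v : ℝ => 2 + v) 1 v := (hasDerivAt_id v).const_add 2
    rw [hev.deriv_eq]
    refine ((hi2.sub hi3).deriv).trans ?_
    have hp := (hpos v hv).ne'
    push_cast
    field_simp
  intro v hv
  have hev : deriv X =ᶠ[𝓝 v] fun v => (CHA_S v) ^ 3 * (1 + deriv Y (1 - CHA_S v)) * ((CHA_S v - Y (1 - CHA_S v))⁻¹) ^ 3 - 1 := by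
    filter_upwards [lt_mem_nhds hv] with w hw
    exact hX1 w hw
  have h1 := CHA_S_deriv v (by linarith)
  have h2 : HasDerivAt (fun v => 1 - CHA_S v) (-(-(CHA_S v) ^ 3 / 2)) v := h1.const_sub 1
  have h3a : HasDerivAt (deriv Y) (d2 Y (1 - CHA_S v)) (1 - CHA_S v) := (dY1 (1 - CHA_S v)).hasDerivAt
  have h3c := HasDerivAt.comp v h3a h2
  have h3 : HasDerivAt (fun v => deriv Y (1 - CHA_S v)) (d2 Y (1 - CHA_S v) * (-(-(CHA_S v) ^ 3 / 2))) v :=
    h3c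
  have h3b : HasDerivAt (fun v => 1 + deriv Y (1 - CHA_S v)) (d2 Y (1 - CHA_S v) * (-(-(CHA_S v) ^ 3 / 2))) v :=
    h3.const_add 1
  have h1b : HasDerivAt (fun v => (CHA_S v) ^ 3) (((3 : ℕ) : ℝ) * (CHA_S v) ^ (3 - 1) * (-(CHA_S v) ^ 3 / 2)) v := h1.pow 3
  have hi : HasDerivAt (fun v => (CHA_S v - Y (1 - CHA_S v))⁻¹)
      (-(-(CHA_S v) ^ 3 / 2 * (1 + deriv Y (1 - CHA_S v))) / (CHA_S v - Y (1 - CHA_S v)) ^ 2) v :=
    (ha v hv).inv (hpos v hv).ne'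
  have hi2 : HasDerivAt (fun v => ((CHA_S v - Y (1 - CHA_S v))⁻¹) ^ 3)
      (((3 : ℕ) : ℝ) * ((CHA_S v - Y (1 - CHA_S v))⁻¹) ^ (3 - 1) * (-(-(CHA_S v) ^ 3 / 2 * (1 + deriv Y (1 - CHA_S v))) / (CHA_S v - Y (1 - CHA_S v)) ^ 2)) v :=
    hi.pow 3
  have h4 := ((h1b.mul h3b).mul hi2).sub_const 1
  have e : d2 X v = deriv (fun v => (CHA_S v) ^ 3 * (1 + deriv Y (1 - CHA_S v)) * ((CHA_S v - Y (1 - CHA_S v))⁻¹) ^ 3 - 1) v := by
    unfold d2
    exact hev.deriv_eq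
  rw [e]
  refine (h4.deriv).trans ?_
  have hp := (hpos v hv).ne'
  unfold CHA_G
  simp only [Pi.mul_apply]
  push_cast
  field_simp
  ring

theorem CHA_BL_pow (u : ℝ → ℝ) (hu : CHA_BL u) (n : ℕ) : CHA_BL (fun x => (u x) ^ n) := by
  induction n with
  | zero =>
      have e : (fun x => (u x) ^ 0) = fun _ => (1 : ℝ) := by funext x; rw [pow_zero]
      rw [e]; exact CHA_BL_const 1
  | succ n ih =>
      have e : (fun x => (u x) ^ (n + 1)) = fun x => (u x) ^ n * u x := by funext x; rw [pow_succ]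
      rw [e]; exact CHA_BL_mul _ _ ih hu

theorem CHA_bound (ε s Y0 Y1 Y2 : ℝ) (hε : 0 ≤ ε) (hε1 : ε ≤ 1 / 10) (hs1 : 63 / 100 ≤ s) (hs2 : s ≤ 65 / 100)
    (h0 : |Y0| ≤ ε / 2500) (h1 : |Y1| ≤ ε / 50) (h2 : |Y2| ≤ ε) :
    |3 / 2 * s ^ 6 * (1 + Y1) ^ 2 * ((s - Y0)⁻¹) ^ 4 + -(3 / 2 * s ^ 5 * (1 + Y1) * ((s - Y0)⁻¹) ^ 3)
      + 1 / 2 * s ^ 6 * ((s - Y0)⁻¹) ^ 3 * Y2| ≤ 20 * ε := by
  have h0' := abs_le.1 h0
  have h1' := abs_le.1 h1
  have ha : 1 / 2 ≤ s - Y0 := by linarith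
  have ha0 : 0 < s - Y0 := by linarith
  have hr0 : 0 < (s - Y0)⁻¹ := inv_pos.2 ha0
  have hr2 : (s - Y0)⁻¹ ≤ 2 := by
    have := inv_anti₀ (by norm_num : (0 : ℝ) < 1 / 2) ha
    norm_num at this
    exact this
  obtain ⟨r, hr⟩ : ∃ r, r = (s - Y0)⁻¹ := ⟨_, rfl⟩
  rw [← hr] at hr0 hr2 ⊢
  have hra : r * (s - Y0) = 1 := by rw [hr]; exact inv_mul_cancel₀ ha0.ne'
  obtain ⟨q, hq⟩ : ∃ q, q = s * r := ⟨_, rfl⟩
  have hq1 : q - 1 = r * Y0 := by rw [hq]; linarith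
  have hq2 : |q - 1| ≤ ε / 1250 := by
    rw [hq1, abs_mul, abs_of_pos hr0]
    have := mul_le_mul hr2 h0 (abs_nonneg _) (by norm_num)
    linarith
  have hq2' := abs_le.1 hq2
  have hq0 : 0 < q := by linarith
  have hq3 : q ≤ 101 / 100 := by linarith
  have hq4 : q ^ 3 ≤ 11 / 10 := by
    calc q ^ 3 ≤ (101 / 100) ^ 3 := pow_le_pow_left₀ hq0.le hq3 3
      _ ≤ 11 / 10 := by norm_num
  have hq5 : 0 < q ^ 3 := by positivity
  have hm : |q * (1 + Y1) - 1| ≤ ε / 40 := by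
    have e : q * (1 + Y1) - 1 = (q - 1) + q * Y1 := by ring
    rw [e]
    have h3 := abs_add_le (q - 1) (q * Y1)
    have h4 : |q * Y1| ≤ 101 / 100 * (ε / 50) := by
      rw [abs_mul, abs_of_pos hq0]
      exact mul_le_mul hq3 h1 (abs_nonneg _) (by norm_num)
    linarith
  have hs3 : s ^ 2 ≤ 1 / 2 := by nlinarith
  have hs4 : 0 < s := by linarith
  have hs5 : s ^ 3 ≤ 1 / 2 := by
    have : s ^ 3 = s ^ 2 * s := by ring
    rw [this]
    nlinarith [sq_nonneg s]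
  have e : 3 / 2 * s ^ 6 * (1 + Y1) ^ 2 * r ^ 4 + -(3 / 2 * s ^ 5 * (1 + Y1) * r ^ 3) + 1 / 2 * s ^ 6 * r ^ 3 * Y2
      = (3 / 2 * s ^ 2 * q ^ 3 * (1 + Y1)) * (q * (1 + Y1) - 1) + (1 / 2 * s ^ 3 * q ^ 3) * Y2 := by
    rw [hq]; ring
  rw [e]
  have hA : |3 / 2 * s ^ 2 * q ^ 3 * (1 + Y1)| ≤ 2 := by
    have h3 : 0 ≤ 1 + Y1 := by linarith
    have h4 : 1 + Y1 ≤ 101 / 100 := by linarith
    have h5 : 0 ≤ s ^ 2 := sq_nonneg s
    rw [abs_of_nonneg (by positivity)]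
    have h6 : s ^ 2 * q ^ 3 ≤ 1 / 2 * (11 / 10) := mul_le_mul hs3 hq4 hq5.le (by norm_num)
    have h7 : s ^ 2 * q ^ 3 * (1 + Y1) ≤ 1 / 2 * (11 / 10) * (101 / 100) := mul_le_mul h6 h4 h3 (by norm_num)
    nlinarith
  have hB : |1 / 2 * s ^ 3 * q ^ 3| ≤ 1 := by
    have h5 : 0 ≤ s ^ 3 := by positivity
    rw [abs_of_nonneg (by positivity)]
    have h6 : s ^ 3 * q ^ 3 ≤ 1 / 2 * (11 / 10) := mul_le_mul hs5 hq4 hq5.le (by norm_num)
    nlinarith
  have h3 := abs_add_le ((3 / 2 * s ^ 2 * q ^ 3 * (1 + Y1)) * (q * (1 + Y1) - 1)) ((1 / 2 * s ^ 3 * q ^ 3) * Y2)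
  have h4 : |(3 / 2 * s ^ 2 * q ^ 3 * (1 + Y1)) * (q * (1 + Y1) - 1)| ≤ 2 * (ε / 40) := by
    rw [abs_mul]; exact mul_le_mul hA hm (abs_nonneg _) (by norm_num)
  have h5 : |(1 / 2 * s ^ 3 * q ^ 3) * Y2| ≤ 1 * ε := by
    rw [abs_mul]; exact mul_le_mul hB h2 (abs_nonneg _) (by norm_num)
  linarith

theorem CHA_outS (v : ℝ) (hv : -1 < v) (h : v ∉ Set.Icc (34 / 100 : ℝ) (56 / 100)) :
    1 - CHA_S v ∉ Set.Icc (35 / 100 : ℝ) (37 / 100) := by
  intro hc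
  rcases lt_or_ge v (34 / 100) with h1 | h1
  · have := CHA_S_gt v (65 / 100) (by linarith) (by norm_num) (by linarith)
    linarith [hc.1]
  · have h2 : 56 / 100 < v := by
      by_contra h3
      exact h ⟨h1, not_lt.1 h3⟩
    have := CHA_S_lt v (63 / 100) (by linarith) (by norm_num) (by linarith)
    linarith [hc.2]

theorem CHA (hBAS : BAS_stmt) (hMLA : MLA_stmt) : CHA_stmt := by
  intro Y ε hY hY0 hYe hε hε1
  obtain ⟨hB1, hB2, hB3, _⟩ := hBAS Y (35 / 100) (37 / 100) ε hY hY0 hYe (by norm_num)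
  have b1 : ∀ y, |deriv Y y| ≤ ε / 50 := fun y => by linarith [hB1 y]
  have b0 : ∀ y, |Y y| ≤ ε / 2500 := fun y => by linarith [hB2 y]
  have hY1 : ContDiff ℝ 1 (deriv Y) := by
    have h2 : ContDiff ℝ (1 + 1) Y := by
      have e : (1 + 1 : WithTop ℕ∞) = 2 := by norm_num
      rw [e]; exact hY
    exact (contDiff_succ_iff_deriv.1 h2).2.2
  have dY : Differentiable ℝ Y := hY.differentiable (by norm_num)
  have dY1 : Differentiable ℝ (deriv Y) := hY1.differentiable (by norm_num)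
  have hpos : ∀ v, -1 < v → 0 < CHA_S v - Y (1 - CHA_S v) := by
    intro v hv
    have hs := CHA_S_pos v (by linarith)
    by_cases hc : 1 - CHA_S v ∈ Set.Icc (35 / 100 : ℝ) (37 / 100)
    · have := abs_le.1 (b0 (1 - CHA_S v))
      linarith [hc.2]
    · rw [hY0 _ hc]; linarith
  obtain ⟨X, hXdef⟩ : ∃ X : ℝ → ℝ, ∀ v, X v = if -1 < v then 1 / (CHA_S v - Y (1 - CHA_S v)) ^ 2 - (2 + v) else 0 :=
    ⟨_, fun _ => rfl⟩
  have hX : ∀ v, -1 < v → X v = 1 / (CHA_S v - Y (1 - CHA_S v)) ^ 2 - (2 + v) := by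
    intro v hv
    rw [hXdef v, if_pos hv]
  have hXout : ∀ v, v ∉ Set.Icc (34 / 100 : ℝ) (56 / 100) → X v = 0 := by
    intro v hv
    by_cases h1 : -1 < v
    · rw [hX v h1, hY0 _ (CHA_outS v h1 hv), sub_zero]
      have h2 := CHA_S_sq v (by linarith)
      have h3 := CHA_S_pos v (by linarith)
      have h4 : 1 / CHA_S v ^ 2 = 2 + v := by
        rw [div_eq_iff (by positivity)]; linarith
      rw [h4, sub_self]
    · rw [hXdef v, if_neg h1]
  have hcd : ContDiff ℝ 2 X := by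
    rw [contDiff_iff_contDiffAt]
    intro v
    rcases lt_or_ge v 0 with h1 | h1
    · have hev : X =ᶠ[𝓝 v] fun _ => (0 : ℝ) := by
        filter_upwards [gt_mem_nhds h1] with w hw
        exact hXout w (fun h => by linarith [h.1])
      exact contDiffAt_const.congr_of_eventuallyEq hev
    · have hev : X =ᶠ[𝓝 v] fun v => 1 / (CHA_S v - Y (1 - CHA_S v)) ^ 2 - (2 + v) := by
        filter_upwards [lt_mem_nhds (show (-1 : ℝ) < v by linarith)] with w hw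
        exact hX w hw
      have hS : ContDiffAt ℝ 2 CHA_S v := by
        have h2 : ContDiffAt ℝ 2 (fun v : ℝ => √(2 + v)) v :=
          ContDiffAt.sqrt (contDiffAt_const.add contDiffAt_id) (by linarith : (2 + v : ℝ) ≠ 0)
        exact contDiffAt_const.div h2 (Real.sqrt_pos.2 (by linarith : (0 : ℝ) < 2 + v)).ne'
      have hYS : ContDiffAt ℝ 2 (fun v => Y (1 - CHA_S v)) v :=
        hY.contDiffAt.comp v (contDiffAt_const.sub hS)
      have h3 : ContDiffAt ℝ 2 (fun v => 1 / (CHA_S v - Y (1 - CHA_S v)) ^ 2 - (2 + v)) v :=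
        (contDiffAt_const.div ((hS.sub hYS).pow 2) (pow_pos (hpos v (by linarith)) 2).ne').sub
          (contDiffAt_const.add contDiffAt_id)
      exact h3.congr_of_eventuallyEq hev
  have hG := CHA_calc Y hY hpos X hX
  have hG0 : ∀ s, 0 < s → 1 - s ∉ Set.Icc (35 / 100 : ℝ) (37 / 100) → CHA_G Y s = 0 := by
    intro s hs hc
    obtain ⟨c1, c2⟩ := hB3 _ hc
    unfold CHA_G
    rw [hY0 _ hc, c1, c2]
    field_simp
    ring
  have hXneg : ∀ v, v ≤ -1 → d2 X v = 0 := by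
    intro v hv
    have hev : X =ᶠ[𝓝 v] fun _ => (0 : ℝ) := by
      filter_upwards [gt_mem_nhds (show v < 0 by linarith)] with w hw
      exact hXout w (fun h => by linarith [h.1])
    have h2 : deriv X =ᶠ[𝓝 v] deriv (fun _ : ℝ => (0 : ℝ)) := hev.deriv
    have h3 : deriv (deriv X) v = deriv (deriv (fun _ : ℝ => (0 : ℝ))) v := h2.deriv_eq
    unfold d2
    rw [h3]
    simp
  have hd2out : ∀ v, v ∉ Set.Icc (34 / 100 : ℝ) (56 / 100) → d2 X v = 0 := by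
    intro v hv
    rcases lt_or_ge (-1) v with h1 | h1
    · rw [hG v h1]
      exact hG0 _ (CHA_S_pos v (by linarith)) (CHA_outS v h1 hv)
    · exact hXneg v h1
  refine ⟨X, hcd, hXout, fun v hv => ?_, fun v => ?_, fun hML => ?_⟩
  · have e : kk (2 + v) = 1 - CHA_S v := rfl
    rw [hX v (by linarith [hv.1]), e]
    unfold uu
    rw [show 1 - (1 - CHA_S v + Y (1 - CHA_S v)) = CHA_S v - Y (1 - CHA_S v) by ring]
    ring
  · rcases lt_or_ge (-1) v with h1 | h1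
    · rw [hG v h1]
      by_cases hc : 1 - CHA_S v ∈ Set.Icc (35 / 100 : ℝ) (37 / 100)
      · exact CHA_bound ε (CHA_S v) _ _ _ hε hε1 (by linarith [hc.2]) (by linarith [hc.1])
          (b0 _) (b1 _) (hYe _)
      · rw [hG0 _ (CHA_S_pos v (by linarith)) hc, abs_zero]; linarith
    · rw [hXneg v h1, abs_zero]; linarith
  · obtain ⟨m1, m2, m3, m4⟩ := hMLA
    have e : d2 X = fun v => CHA_G Y (CHA_S (CHA_p v)) := by
      funext v
      rcases lt_or_ge v (1 / 5) with h1 | h1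
      · have h2 : CHA_p v = 1 / 5 := by
          unfold CHA_p
          rw [min_eq_left (by linarith), max_eq_left h1.le]
        rw [hd2out v (fun h => by linarith [h.1]), h2,
          hG0 _ (CHA_S_pos _ (by norm_num)) (CHA_outS _ (by norm_num) (fun h => by norm_num at h))]
      · rcases lt_or_ge (7 / 10) v with h3 | h3
        · have h2 : CHA_p v = 7 / 10 := by
            unfold CHA_p
            rw [min_eq_right h3.le, max_eq_right (by norm_num)]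
          rw [hd2out v (fun h => by linarith [h.2]), h2,
            hG0 _ (CHA_S_pos _ (by norm_num)) (CHA_outS _ (by norm_num) (fun h => by norm_num at h))]
        · have h2 : CHA_p v = v := by
            unfold CHA_p
            rw [min_eq_left h3, max_eq_right h1]
          rw [h2]
          exact hG v (by linarith)
    rw [e]
    -- the pieces
    have k0 : CHA_BL (fun v => CHA_S (CHA_p v)) := CHA_Sp_BL
    have k1 : CHA_BL (fun v => 1 - CHA_S (CHA_p v)) := by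
      have h := CHA_BL_add _ _ (CHA_BL_const 1) (CHA_BL_neg _ k0)
      exact h
    have kY : CHA_BL Y := CHA_BL_of_deriv Y (ε / 2500) (ε / 50) dY b0 b1
    have kY1 : CHA_BL (deriv Y) := CHA_BL_of_deriv (deriv Y) (ε / 50) ε dY1 b1 hYe
    have k2 : CHA_BL (fun v => Y (1 - CHA_S (CHA_p v))) := CHA_BL_comp Y _ kY k1
    have k3 : CHA_BL (fun v => deriv Y (1 - CHA_S (CHA_p v))) := CHA_BL_comp (deriv Y) _ kY1 k1
    have k4 : CHA_BL (fun v => CHA_S (CHA_p v) - Y (1 - CHA_S (CHA_p v))) := by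
      have h := CHA_BL_add _ _ k0 (CHA_BL_neg _ k2)
      exact h
    have k5 : CHA_BL (fun v => (CHA_S (CHA_p v) - Y (1 - CHA_S (CHA_p v)))⁻¹) := by
      refine CHA_BL_inv _ k4 (1 / 2) (by norm_num) (fun v => ?_)
      have h := CHA_p_mem v
      have h1 := CHA_S_gt (CHA_p v) (6 / 10) (by linarith) (by norm_num) (by linarith)
      have h2 := abs_le.1 (b0 (1 - CHA_S (CHA_p v)))
      linarith
    have k6 : CHA_BL (fun v => 1 + deriv Y (1 - CHA_S (CHA_p v))) := CHA_BL_add _ _ (CHA_BL_const 1) k3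
    have kA : CHA_BL (fun v => 3 / 2 * (CHA_S (CHA_p v)) ^ 6 * (1 + deriv Y (1 - CHA_S (CHA_p v))) ^ 2 *
        ((CHA_S (CHA_p v) - Y (1 - CHA_S (CHA_p v)))⁻¹) ^ 4) :=
      CHA_BL_mul _ _ (CHA_BL_mul _ _ (CHA_BL_mul _ _ (CHA_BL_const (3 / 2)) (CHA_BL_pow _ k0 6)) (CHA_BL_pow _ k6 2))
        (CHA_BL_pow _ k5 4)
    have kB : CHA_BL (fun v => -(3 / 2 * (CHA_S (CHA_p v)) ^ 5 * (1 + deriv Y (1 - CHA_S (CHA_p v))) *
        ((CHA_S (CHA_p v) - Y (1 - CHA_S (CHA_p v)))⁻¹) ^ 3)) :=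
      CHA_BL_neg _ (CHA_BL_mul _ _ (CHA_BL_mul _ _ (CHA_BL_mul _ _ (CHA_BL_const (3 / 2)) (CHA_BL_pow _ k0 5)) k6)
        (CHA_BL_pow _ k5 3))
    have kC : CHA_BL (fun v => 1 / 2 * (CHA_S (CHA_p v)) ^ 6 * ((CHA_S (CHA_p v) - Y (1 - CHA_S (CHA_p v)))⁻¹) ^ 3) :=
      CHA_BL_mul _ _ (CHA_BL_mul _ _ (CHA_BL_const (1 / 2)) (CHA_BL_pow _ k0 6)) (CHA_BL_pow _ k5 3)
    have toML : ∀ u, CHA_BL u → ML u := by
      rintro u ⟨A, _, _, hA⟩
      exact m1 u A hA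
    have l1 : ML (fun v => d2 Y (1 - CHA_S (CHA_p v))) := by
      obtain ⟨A, _, _, hA⟩ := k1
      exact m4 (d2 Y) (fun v => 1 - CHA_S (CHA_p v)) A hML hA
    have l2 : ML (fun v => (1 / 2 * (CHA_S (CHA_p v)) ^ 6 * ((CHA_S (CHA_p v) - Y (1 - CHA_S (CHA_p v)))⁻¹) ^ 3) *
        d2 Y (1 - CHA_S (CHA_p v))) := by
      have hkC := toML _ kC
      obtain ⟨A, hA0, hA, _⟩ := kC
      exact m3 _ _ (A + ε) hkC l1 (fun x => ⟨(hA x).trans (by linarith), (hYe _).trans (by linarith)⟩)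
    exact m2 _ _ (m2 _ _ (toML _ kA) (toML _ kB)) l2

end Pool.Agent.helper64.D2
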